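import Pool.Agent.W209.KT.Stm

/-!
# Project KT, part M
-/

set_option autoImplicit false

open Filter MeasureTheory

namespace Pool.Agent.W532.KT

open Pool.Agent.W209.KT

/-- a sum over the fibres of `κ` -/
theorem fib (a : ℕ → ℝ) (ha : ∀ k, 0 ≤ a k) (κ : ℕ → ℕ) (c : ℕ → ℕ) (hc : ∀ i, i < c (κ i))
    (hs : Summable (fun k => (c k : ℝ) * a k)) : Summable (fun i => a (κ i)) := by
  refine summable_of_sum_range_le (c := ∑' k, (c k : ℝ) * a k) (fun i => ha _) fun n => ?_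
  rw [Finset.sum_comp]
  refine le_trans (Finset.sum_le_sum (g := fun k => (c k : ℝ) * a k) fun k _ => ?_)
    (hs.sum_le_tsum _ fun k _ => mul_nonneg (Nat.cast_nonneg _) (ha k))
  rw [nsmul_eq_mul]
  refine mul_le_mul_of_nonneg_right ?_ (ha k)
  have h : (Finset.filter (fun i => κ i = k) (Finset.range n)) ⊆ Finset.range (c k) := by
    intro i hi
    rw [Finset.mem_filter] at hi
    rw [Finset.mem_range, ← hi.2]
    exact hc i
  have h2 := Finset.card_le_card h
  rw [Finset.card_range] at h2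
  exact_mod_cast h2

/-- the bound for the denominators -/
def QQ (k : ℕ) : ℕ := D k ^ 12 * 2 ^ (50 * lev k)

/-- the values of the approximation function -/
noncomputable def ps (k : ℕ) : ℝ := 50 / (D k * 2 ^ (5 * lev k))

theorem lev_mono {k l : ℕ} (h : k ≤ l) : lev k ≤ lev l :=
  Nat.log_mono_right (Nat.succ_le_succ h)

theorem D_mono {k l : ℕ} (h : k ≤ l) : D k ≤ D l := by
  unfold D
  exact Nat.pow_le_pow_right (by norm_num)
    (Nat.mul_le_mul_left _ (Nat.pow_le_pow_right (by norm_num) h))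

theorem D_pos (k : ℕ) : 0 < D k := by unfold D; positivity

theorem D_gt (k : ℕ) : k < D k := by
  have h1 : k < 36 ^ k := Nat.lt_pow_self (by norm_num)
  have h2 : 36 ^ k ≤ 1000 * 36 ^ k := Nat.le_mul_of_pos_left _ (by norm_num)
  have h3 : 1000 * 36 ^ k < 2 ^ (1000 * 36 ^ k) := Nat.lt_pow_self (by norm_num)
  unfold D
  omega

theorem QQ_ge (k : ℕ) : k ≤ QQ k := by
  have h1 := D_gt k
  have h2 : D k ≤ D k ^ 12 := Nat.le_self_pow (by norm_num) _
  have h3 : D k ^ 12 ≤ QQ k := Nat.le_mul_of_pos_right _ (by positivity)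
  omega

theorem QQ_pos (k : ℕ) : 0 < QQ k := by
  have := D_pos k
  unfold QQ; positivity

theorem ps_nonneg (k : ℕ) : 0 ≤ ps k := by unfold ps; positivity

theorem ps_anti {k l : ℕ} (h : k ≤ l) : ps l ≤ ps k := by
  have h1 : (D k : ℝ) ≤ D l := by exact_mod_cast D_mono h
  have h2 : (2 : ℝ) ^ (5 * lev k) ≤ 2 ^ (5 * lev l) :=
    pow_le_pow_right₀ (by norm_num) (Nat.mul_le_mul_left _ (lev_mono h))
  have h3 : (0 : ℝ) < D k := by exact_mod_cast D_pos k
  unfold ps
  refine div_le_div_of_nonneg_left (by norm_num) (by positivity) ?_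
  exact mul_le_mul h1 h2 (by positivity) (le_trans h3.le h1)

theorem ex (q : ℕ) : ∃ k, q ≤ QQ k := ⟨q, QQ_ge q⟩

/-- the least index -/
noncomputable def ix (q : ℕ) : ℕ := Nat.find (ex q)

theorem ix_spec (q : ℕ) : q ≤ QQ (ix q) := Nat.find_spec (ex q)

theorem ix_le {q k : ℕ} (h : q ≤ QQ k) : ix q ≤ k := Nat.find_min' (ex q) h

theorem sum1 : Summable (fun k : ℕ => ((1 : ℝ) / 1024) ^ lev k) := by
  refine fib (fun l => ((1 : ℝ) / 1024) ^ l) (fun l => by positivity) lev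
    (fun l => 256 ^ (l + 1)) (fun k => ?_) ?_
  · have h := Nat.lt_pow_succ_log_self (b := 256) (by norm_num) (k + 1)
    have h2 : k + 1 < 256 ^ (lev k + 1) := h
    show k < 256 ^ (lev k + 1)
    omega
  · have h : (fun l : ℕ => (((256 ^ (l + 1) : ℕ)) : ℝ) * ((1 : ℝ) / 1024) ^ l) =
        fun l : ℕ => 256 * ((1 : ℝ) / 4) ^ l := by
      funext l
      push_cast
      rw [pow_succ, mul_comm ((256 : ℝ) ^ l) 256, mul_assoc, ← mul_pow]
      norm_num
    rw [h]
    exact (summable_geometric_of_lt_one (by norm_num) (by norm_num)).mul_left _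

theorem sum2 : Summable (fun q : ℕ => ps (ix q) ^ 12) := by
  refine fib (fun k => ps k ^ 12) (fun k => pow_nonneg (ps_nonneg k) _) ix (fun k => QQ k + 1)
    (fun q => Nat.lt_succ_of_le (ix_spec q)) ?_
  refine Summable.of_nonneg_of_le (fun k => mul_nonneg (Nat.cast_nonneg _)
    (pow_nonneg (ps_nonneg k) _)) (fun k => ?_) (sum1.mul_left (2 * 50 ^ 12))
  have h1 : ((QQ k + 1 : ℕ) : ℝ) ≤ 2 * QQ k := by
    have := QQ_pos k
    have h : QQ k + 1 ≤ 2 * QQ k := by omega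
    exact_mod_cast h
  have h3 : (0 : ℝ) < D k := by exact_mod_cast D_pos k
  have h4 : (QQ k : ℝ) * ps k ^ 12 = 50 ^ 12 * ((1 : ℝ) / 1024) ^ lev k := by
    unfold QQ ps
    push_cast
    have e1 : ((2 : ℝ) ^ (5 * lev k)) ^ 12 = 2 ^ (50 * lev k) * 1024 ^ lev k := by
      rw [← pow_mul, show (1024 : ℝ) = 2 ^ 10 by norm_num, ← pow_mul, ← pow_add]
      congr 1
      ring
    rw [div_pow, mul_pow, e1, one_div, inv_pow]
    have h5 : (0 : ℝ) < 2 ^ (50 * lev k) := by positivity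
    have h6 : (0 : ℝ) < 1024 ^ lev k := by positivity
    field_simp
  calc ((QQ k + 1 : ℕ) : ℝ) * ps k ^ 12 ≤ 2 * QQ k * ps k ^ 12 :=
        mul_le_mul_of_nonneg_right h1 (pow_nonneg (ps_nonneg k) _)
    _ = 2 * 50 ^ 12 * ((1 : ℝ) / 1024) ^ lev k := by rw [mul_assoc, h4, ← mul_assoc]

theorem nrm_pos {t : ℝ} (ht : Irrational t) {q : ℕ} (hq : 0 < q) : 0 < nrm (q * t) := by
  have h1 : Irrational ((q : ℝ) * t) := ht.natCast_mul hq.ne'
  unfold nrm
  rw [abs_pos, sub_ne_zero]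
  exact h1.ne_int _

theorem gap {t : ℝ} (ht : Irrational t) (N : ℕ) : ∃ δ : ℝ, 0 < δ ∧ ∀ q : ℕ, 0 < q → q < N →
    δ ≤ nrm (q * t) := by
  induction N with
  | zero => exact ⟨1, one_pos, fun q _ h => absurd h (Nat.not_lt_zero _)⟩
  | succ N ih =>
    obtain ⟨δ, hδ, h⟩ := ih
    rcases Nat.eq_zero_or_pos N with rfl | hN
    · exact ⟨1, one_pos, fun q h1 h2 => by omega⟩
    · refine ⟨min δ (nrm (N * t)), lt_min hδ (nrm_pos ht hN), fun q h1 h2 => ?_⟩
      rcases Nat.lt_succ_iff_lt_or_eq.1 h2 with h3 | h3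
      · exact le_trans (min_le_left _ _) (h q h1 h3)
      · rw [h3]; exact min_le_right _ _

theorem M (h1 : S_cov) (h2 : S_curve) : S_M := by
  intro A s hg
  refine ⟨fun q => ps (ix q), fun q => ps_nonneg _, fun q q' hqq => ?_, sum2, ?_⟩
  · exact ps_anti (ix_le (le_trans hqq (ix_spec q')))
  · intro t ht1 ht2 hirr
    have key : ∀ N : ℕ, ∃ k q : ℕ, N ≤ k ∧ 0 < q ∧ (∀ i, nrm (q * pt A (gam t) i) < ps k) ∧
        ps k ≤ ps (ix q) := by
      intro N
      obtain ⟨k, hk, hk2⟩ := h1.2.2 t ht1 ht2 N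
      obtain ⟨q, hq, hq2, hq3⟩ := h2 A s hg k t ht1 ht2 hk2
      exact ⟨k, q, hk, hq, hq3, ps_anti (ix_le hq2)⟩
    unfold Appr
    rw [Filter.frequently_atTop]
    intro N0
    by_contra hcon
    push Not at hcon
    obtain ⟨δ, hδ, hgap⟩ := gap hirr N0
    obtain ⟨N, hN⟩ := exists_nat_gt (50 / δ)
    obtain ⟨k, q, hk, hq, hq2, hq3⟩ := key N
    have hlt : q < N0 := by
      by_contra h
      push Not at h
      obtain ⟨i, hi⟩ := hcon q h
      exact absurd (lt_of_lt_of_le (hq2 i) hq3) (not_lt.2 hi)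
    have h5 := hq2 (Fin.castAdd 2 (0 : Fin 10))
    have h6 : pt A (gam t) (Fin.castAdd 2 (0 : Fin 10)) = t := by
      unfold pt
      rw [Fin.append_left]
      simp [gam]
    rw [h6] at h5
    have h7 := hgap q hq hlt
    have h8 : ps k ≤ 50 / (D k : ℝ) := by
      have h3 : (0 : ℝ) < D k := by exact_mod_cast D_pos k
      unfold ps
      refine div_le_div_of_nonneg_left (by norm_num) h3 ?_
      exact le_mul_of_one_le_right h3.le (one_le_pow₀ (by norm_num))
    have h9 : (N : ℝ) < D k := by exact_mod_cast lt_of_le_of_lt hk (D_gt k)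
    have h10 : 50 / (D k : ℝ) < δ := by
      have h3 : (0 : ℝ) < D k := by exact_mod_cast D_pos k
      rw [div_lt_iff₀ h3]
      rw [div_lt_iff₀ hδ] at hN
      nlinarith
    linarith

end Pool.Agent.W532.KT
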